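import Pool.Agent.P.MP_f0defb_al.InjCover

namespace Pool.Agent.Results.MP_f0defb_al.InjectiveCover

open Pool.Agent.P.MP_f0defb_al

universe u

/-- A solution `(Z, s)` is the image of an injective solution under a surjective morphism exactly
when `s (x, y) = (x, y')` forces `y' = y`; if `Z` is finite the injective solution can be taken
finite, of size at most `|Z| 2 ^ |Z|`, and indecomposable if `Z` is indecomposable. -/
theorem result (Z : Type u) (T : Solution Z) :
    (∀ x y y' : Z, T.r (x, y) = (x, y') → y' = y) ↔
      ∃ (Y : Type u) (S : Solution Y) (f : Y → Z),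
        Function.Injective (canonicalMap S) ∧ IsMorphism S T f ∧ Function.Surjective f ∧
        (Finite Z → Finite Y ∧ Nat.card Y ≤ Nat.card Z * 2 ^ Nat.card Z ∧
          (IsIndec T → IsIndec S)) :=
  injective_cover T

end Pool.Agent.Results.MP_f0defb_al.InjectiveCover
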