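import Pool.Agent.P.MP_f0defb_al.Cover

namespace Pool.Agent.Results.MP_f0defb_al.KinkFibres

open Pool.Agent.P.MP_f0defb_al

universe u

/-- The free solution on `X` exists; its canonical map to the structure group is not injective
for non-empty `X`, and the fibres of that map are exactly the orbits of the kink permutation,
which has no periodic point. -/
theorem result (X : Type u) :
    (∃ (F : Type u) (S : Solution F) (i : X → F), IsFree S i) ∧
    ∀ (F : Type u) (S : Solution F) (i : X → F), IsFree S i →
      (Nonempty X → ¬ Function.Injective (canonicalMap S)) ∧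
      ∃ κ : Equiv.Perm F, (∀ y y', κ y = y' ↔ ∃ x, S.r (x, y) = (x, y')) ∧
        (∀ (y : F) (n : ℤ), (κ ^ n) y = y → n = 0) ∧
        ∀ y y', canonicalMap S y = canonicalMap S y' ↔ ∃ n : ℤ, (κ ^ n) y = y' :=
  ⟨⟨_, _, _, freeSol_isFree X⟩,
    fun _ S i h => ⟨fun _ => not_injective S i h, kink S, kink_iff S, kink_free h, fibres h⟩⟩

end Pool.Agent.Results.MP_f0defb_al.KinkFibres
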