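import Pool.Agent.P.MP_f0defb_al.Norm

namespace Pool.Agent.Results.MP_f0defb_al.NormalForm

open Pool.Agent.P.MP_f0defb_al

universe u

/-- Normal form in the free solution `F` on `X`, with structure group `G`: the maps `λ_x` and `ρ_y`
extend to a left and a right action of `G` on `F`, and every element of `F` is `λ_a (ρ_b (i x))` for
exactly one triple `(a, b, x)` in `G × G × X`. -/
theorem result (X F : Type u) (S : Solution F) (i : X → F) (h : IsFree S i) :
    ∃ (lam : StructureGroup S →* Equiv.Perm F) (rho : StructureGroup S →* (Equiv.Perm F)ᵐᵒᵖ),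
      (∀ x y, lam (canonicalMap S x) y = (S.r (x, y)).1) ∧
      (∀ x y, (rho (canonicalMap S y)).unop x = (S.r (x, y)).2) ∧
      Function.Bijective fun t : StructureGroup S × StructureGroup S × X =>
        lam t.1 ((rho t.2.1).unop (i t.2.2)) :=
  ⟨act S, ract S, fun x y => by rw [act_of]; rfl, fun x y => by rw [ract_of]; rfl,
    (normal_form h).1⟩

end Pool.Agent.Results.MP_f0defb_al.NormalForm
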