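import Pool.Agent.P.MP_f0defb_al.Sepr

namespace Pool.Agent.Results.MP_f0defb_al.ResiduallyP

open Pool.Agent.P.MP_f0defb_al

universe u

/-- For every prime `p`, two distinct points of a free solution are separated by a morphism to a
finite multipermutation solution whose size is a power of `p`; if the two points have different
images in the structure group, the target can be taken injective. -/
theorem result (p : ℕ) (hp : p.Prime) (X F : Type u) (S : Solution F) (i : X → F)
    (h : IsFree S i) (y y' : F) (hy : y ≠ y') :
    ∃ (Z : Type u) (T : Solution Z) (f : F → Z), Finite Z ∧ (∃ k, Nat.card Z = p ^ k) ∧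
      IsMultiperm T ∧ IsMorphism S T f ∧ f y ≠ f y' ∧
      (canonicalMap S y ≠ canonicalMap S y' → Function.Injective (canonicalMap T)) := by
  have := Fact.mk hp
  obtain ⟨Z, T, f, ⟨k, hk⟩, h'⟩ := residually p h hy
  exact ⟨Z, T, f, Nat.finite_of_card_ne_zero (hk ▸ pow_ne_zero k hp.ne_zero), ⟨k, hk⟩, h'⟩

end Pool.Agent.Results.MP_f0defb_al.ResiduallyP
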